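import Pool.Agent.Lead.Rk1

namespace Pool.Agent.Results.MP_12cd8a_lc.Q1
open Ordinal hiding univ
open Set Filter Topology Classical Pool.Agent.Lead.Rk

variable {X : Type} [MetricSpace X]

lemma bb_ind {A : Set X} (h1 : IsGδ A) (h2 : IsGδ Aᶜ) : BB (A.indicator (1 : X → ℝ)) := by
  refine ⟨?_, 1, fun x => by by_cases h : x ∈ A <;> simp [h]⟩
  obtain ⟨U, Uo, hU⟩ := isGδ_iff_eq_iInter_nat.1 h1
  obtain ⟨W, Wo, hW⟩ := isGδ_iff_eq_iInter_nat.1 h2
  have cl : ∀ (U : ℕ → Set X), (∀ n, IsOpen (U n)) → ∀ n, IsClosed (⋂ i ∈ Iic n, U i)ᶜ :=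
    fun U h n => ((finite_Iic n).isOpen_biInter fun i _ => h i).isClosed_compl
  have sub : ∀ (U : ℕ → Set X) n, (⋂ i ∈ Iic n, U i)ᶜ ⊆ (⋂ i, U i)ᶜ := fun U n =>
    compl_subset_compl.2 fun x hx => mem_iInter₂.2 fun i _ => mem_iInter.1 hx i
  have ev : ∀ (U : ℕ → Set X) x, x ∉ ⋂ i, U i → ∀ᶠ n in atTop, x ∈ (⋂ i ∈ Iic n, U i)ᶜ := by
    intro U x hx
    obtain ⟨i, hi⟩ := not_forall.1 (mt mem_iInter.2 hx)
    exact eventually_atTop.2 ⟨i, fun n hn h => hi (mem_iInter₂.1 h i hn)⟩
  choose g g0 g1 _ using fun n => exists_continuous_zero_one_of_isClosed (cl U Uo n) (cl W Wo n)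
    (disjoint_left.2 fun x a b => (hW ▸ sub W n b : x ∈ Aᶜᶜ) (hU ▸ sub U n a : x ∈ Aᶜ))
  refine ⟨fun n => g n, fun n => (g n).continuous, fun x => tendsto_const_nhds.congr' ?_⟩
  by_cases h : x ∈ A
  · filter_upwards [ev W x (hW ▸ not_not.2 h)] with n hn
    simp [h, g1 n hn]
  · filter_upwards [ev U x (hU ▸ h)] with n hn
    simp [h, g0 n hn]

lemma bb_add {f g : X → ℝ} (hf : BB f) (hg : BB g) : BB (f + g) := by
  obtain ⟨⟨a, a1, a2⟩, M, hM⟩ := hf
  obtain ⟨⟨b, b1, b2⟩, N, hN⟩ := hg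
  exact ⟨⟨fun n => a n + b n, fun n => (a1 n).add (b1 n), fun x => (a2 x).add (b2 x)⟩, M + N,
    fun x => (abs_add_le _ _).trans (add_le_add (hM x) (hN x))⟩

lemma bb_comp {f : X → ℝ} (hf : BB f) {h : ℝ → ℝ} {K} (hh : LipschitzWith K h) : BB (h ∘ f) := by
  obtain ⟨⟨a, a1, a2⟩, M, hM⟩ := hf
  refine ⟨⟨fun n => h ∘ a n, fun n => hh.continuous.comp (a1 n),
    fun x => (hh.continuous.tendsto _).comp (a2 x)⟩, |h 0| + K * M, fun x => ?_⟩
  have h1 := hh.dist_le_mul (f x) 0
  rw [Real.dist_eq, Real.dist_eq, _root_.sub_zero] at h1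
  have h2 := mul_le_mul_of_nonneg_left (hM x) K.2
  have h3 := abs_add_le (h (f x) - h 0) (h 0)
  simp only [sub_add_cancel, NNReal.val_eq_coe] at h2 h3
  exact h3.trans (by linarith)

lemma lip_aff (a b : ℝ) : LipschitzWith ‖a‖₊ fun t : ℝ => a * t + b :=
  LipschitzWith.of_dist_le_mul fun x y => by
    simp [Real.dist_eq, ← _root_.mul_sub, abs_mul]

theorem main (ρ : (X → ℝ) → Ordinal.{0}) (H : Props ρ) (f : X → ℝ) (hf : BB f) (η : Ordinal.{0})
    (h1 : 1 ≤ η) (h2 : η < ω₁) : ρ f ≤ ω ^ η ↔ AlphaFLe f (ω ^ η) := by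
  let S : (X → ℝ) → Prop := fun g => BB g ∧ ρ g ≤ ω ^ η
  have hω : ω ^ η < ω₁ := isPrincipal_opow_omega 1 omega0_lt_omega_one h2
  have add : ∀ {g k}, S g → S k → S (g + k) := fun a b =>
    ⟨bb_add a.1 b.1, H.p2b _ _ a.1 b.1 η h1 h2 (max_le a.2 b.2)⟩
  have comp : ∀ {g} {h : ℝ → ℝ} {K}, LipschitzWith K h → S g → S (h ∘ g) := fun hh a =>
    ⟨bb_comp a.1 hh, H.p4 _ a.1 _ _ hh η h1 h2 a.2⟩
  have ind : ∀ A : Set X, IsGδ A → IsGδ Aᶜ → AlphaLe A Aᶜ (ω ^ η) → S (A.indicator 1) :=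
    fun A a b c => ⟨bb_ind a b, (H.p1 A a b η h1 h2).2 c⟩
  have clo : ∀ K : Set X, IsClosed K → S (K.indicator 1) := fun K hK =>
    ind K hK.isGδ hK.isOpen_compl.isGδ (alpha_iff.2 (subset_eq_empty (G_anti _ _
      ((natCast_lt_omega0 3).le.trans (by simpa using opow_le_opow_right omega0_pos h1)))
      (G_three hK)))
  constructor
  · intro hρ p q hpq
    have hpq' : (0 : ℝ) < q - p := by simpa using hpq
    refine alpha_iff.2 (eq_empty_of_forall_notMem fun x hx => ?_)
    obtain ⟨K, k1, k2, -, k4, k5⟩ := tree _ _ _ hω x hx 1 one_pos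
    set B := {x | f x ≤ p}
    have gd : IsGδ (B ∩ K) := by
      convert k1.isGδ.inter (k2.mono (sdiff_subset (t := B))).isGδ_compl using 1
      ext y; simp; tauto
    have gd' : IsGδ (B ∩ K)ᶜ := (k2.mono inter_subset_right).isGδ_compl
    have s1 := comp ((lip_aff (-(q - p : ℝ)⁻¹) (q / (q - p))).const_min 1) (⟨hf, hρ⟩ : S f)
    have s2 := comp (lip_aff (if f x ≤ p then 0 else -1) 0) (clo {x} isClosed_singleton)
    have s3 := comp ((lip_aff 1 (-1)).const_max 0) (add s1 (add (clo K k1) s2))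
    have e : ∀ t : ℝ, -(q - p : ℝ)⁻¹ * t + q / (q - p) = (q - t) / (q - p) := fun t => by
      field_simp; ring
    have s4 : S ((B ∩ K).indicator 1) := by
      convert s3 using 1
      funext y
      simp only [Function.comp, Pi.add_apply, e]
      by_cases a : y ∈ K
      · by_cases b : f y ≤ p
        · have : 1 ≤ (q - f y) / (q - p) := (one_le_div hpq').2 (by linarith)
          by_cases c : y = x
          · subst c; simp [a, b, B, this]
          · simp [a, b, B, this, c]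
        · by_cases c : y = x
          · subst c; simp [a, b, B]
          · have d : (q : ℝ) ≤ f y := ((k4 a).resolve_left c).resolve_left b
            have : (q - f y) / (q - p) ≤ 0 := div_nonpos_of_nonpos_of_nonneg (by linarith) hpq'.le
            simp [a, b, B, c, this]
      · by_cases c : y = x
        · subst c
          by_cases b : f y ≤ p <;> simp [a, b]
        · simp [a, c]
    have := alpha_iff.1 ((H.p1 _ gd gd' η h1 h2).1 s4.2)
    refine (this ▸ G_mono le_rfl (fun y hy hy' => ?_) _ k5 : x ∈ (∅ : Set X))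
    have a : f y ≤ p := hy'.1
    have b : (q : ℝ) ≤ f y := hy.1
    linarith
  · intro hα
    obtain ⟨M, hM⟩ := hf.2
    obtain ⟨N, hN⟩ := exists_nat_ge M
    have approx : ∀ ε : ℚ, 0 < ε → ∀ k : ℕ, ∃ g, S g ∧ ∀ x,
        |g x - min (f x) (-N + k * ε)| ≤ ε ∧ ((-N + k * ε : ℝ) ≤ f x → g x = -N + k * ε) := by
      intro ε hε k
      have hε' : (0 : ℝ) < ε := by exact_mod_cast hε
      induction k with
      | zero =>
        refine ⟨_, comp (lip_aff 0 (-N)) (clo _ isClosed_univ), fun x => ?_⟩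
        have : (-N : ℝ) ≤ f x := by linarith [(abs_le.1 (hM x)).1]
        simp [this, hε.le]
      | succ k ih =>
        obtain ⟨g, sg, hg⟩ := ih
        obtain ⟨l, hl, F, hF, hB, hC⟩ := hα (-N + k * ε) (-N + (k + 1) * ε) (by linarith)
        obtain ⟨d1, d2⟩ := diff_gd hF (hl.trans_lt hω)
        refine ⟨_, add sg (comp (lip_aff (-ε) ε) (ind _ d1 d2
          ⟨l, hl, F, hF, le_rfl, disjoint_compl_right⟩)), fun x => ?_⟩
        obtain ⟨a, b⟩ := hg x
        have c : f x ≤ -N + k * ε → x ∈ Diff F := fun h => hB (by simpa using h)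
        have d : x ∈ Diff F → f x < -N + (k + 1) * ε := fun h =>
          lt_of_not_ge fun h' => disjoint_left.1 hC h (by simpa using h')
        simp only [Pi.add_apply, Function.comp, Nat.cast_succ]
        by_cases hx : x ∈ Diff F
        · have := d hx
          simp only [indicator_of_mem hx, Pi.one_apply]
          refine ⟨?_, fun h => absurd h (not_le.2 this)⟩
          rw [min_eq_left this.le]
          rcases le_total (f x) (-N + k * ε) with h | h
          · rw [min_eq_left h] at a; simpa using a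
          · rw [b h, abs_le]; constructor <;> linarith
        · have := lt_of_not_ge (mt c hx)
          simp only [indicator_of_notMem hx, b this.le]
          refine ⟨?_, fun _ => by ring⟩
          rcases le_total (f x) (-N + (k + 1) * ε) with h | h
          · rw [min_eq_left h, abs_le]; constructor <;> linarith
          · rw [min_eq_right h, abs_le]; constructor <;> linarith
    choose g sg hg using fun n : ℕ => approx (1 / (n + 1)) (by positivity) (2 * N * (n + 1))
    refine H.p3 f g hf (fun n => (sg n).1) (Metric.tendstoUniformly_iff.2 fun ε hε => ?_) η h1 h2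
      (Ordinal.iSup_le fun n => (sg n).2)
    obtain ⟨n, hn⟩ := exists_nat_one_div_lt hε
    refine eventually_atTop.2 ⟨n, fun m hm x => ?_⟩
    have a := (hg m x).1
    have b : (-N + ((2 * N * (m + 1) : ℕ) : ℝ) * ((1 / (m + 1) : ℚ) : ℝ)) = N := by
      push_cast; field_simp; ring
    rw [b, min_eq_left (((abs_le.1 (hM x)).2).trans hN), abs_sub_comm] at a
    refine (a.trans ?_).trans_lt hn
    push_cast
    exact Nat.one_div_le_one_div hm

theorem result (X : Type) [TopologicalSpace X] [PolishSpace X] (ρ : (X → ℝ) → Ordinal.{0})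
    (H : Props ρ) (f : X → ℝ) (hf : BB f) (η : Ordinal.{0}) (h1 : 1 ≤ η) (h2 : η < ω₁) :
    ρ f ≤ ω ^ η ↔ AlphaFLe f (ω ^ η) := by
  let _ := TopologicalSpace.upgradeIsCompletelyMetrizable X
  exact main ρ H f hf η h1 h2

end Pool.Agent.Results.MP_12cd8a_lc.Q1
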